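import Pool.Agent.H64.EV.Targets

/-!
# The pairing in terms of the partial contractions (board evn_modules, row ONN)
-/

set_option autoImplicit false
set_option linter.unusedSectionVars false

open Matrix

namespace Pool.Agent.H27.EV.ONN

open Pool.Agent.H2.NL Pool.Agent.H64.EV

section

variable {K : Type} [Field K] {I : Type} [Fintype I] [DecidableEq I] (F : OForm K I)

theorem Pr_sum_left {ι : Type} (s : Finset ι) (c : ι → K) (n : ℕ) :
    ∀ (x : ι → List I → K) (y : List I → K),
    F.Pr n (fun l => ∑ i ∈ s, c i * x i l) y = ∑ i ∈ s, c i * F.Pr n (x i) y := by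
  induction n with
  | zero =>
    intro x y
    show (∑ i ∈ s, c i * x i []) * y [] = ∑ i ∈ s, c i * (x i [] * y [])
    rw [Finset.sum_mul]
    exact Finset.sum_congr rfl fun i _ => mul_assoc _ _ _
  | succ n ih =>
    intro x y
    show ∑ a, F.c a * F.Pr n (fun l => ∑ i ∈ s, c i * x i (a :: l)) (fun l => y (F.st a :: l)) =
      ∑ i ∈ s, c i * ∑ a, F.c a * F.Pr n (fun l => x i (a :: l)) (fun l => y (F.st a :: l))
    have h1 : ∀ a, F.Pr n (fun l => ∑ i ∈ s, c i * x i (a :: l)) (fun l => y (F.st a :: l)) =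
        ∑ i ∈ s, c i * F.Pr n (fun l => x i (a :: l)) (fun l => y (F.st a :: l)) :=
      fun a => ih (fun i l => x i (a :: l)) _
    simp only [h1, Finset.mul_sum]
    rw [Finset.sum_comm]
    refine Finset.sum_congr rfl fun i _ => Finset.sum_congr rfl fun a _ => ?_
    ring

theorem Pr_sum_right {ι : Type} (s : Finset ι) (c : ι → K) (n : ℕ) :
    ∀ (x : List I → K) (y : ι → List I → K),
    F.Pr n x (fun l => ∑ i ∈ s, c i * y i l) = ∑ i ∈ s, c i * F.Pr n x (y i) := by
  induction n with
  | zero =>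
    intro x y
    show x [] * (∑ i ∈ s, c i * y i []) = ∑ i ∈ s, c i * (x [] * y i [])
    rw [Finset.mul_sum]
    exact Finset.sum_congr rfl fun i _ => mul_left_comm _ _ _
  | succ n ih =>
    intro x y
    show ∑ a, F.c a * F.Pr n (fun l => x (a :: l)) (fun l => ∑ i ∈ s, c i * y i (F.st a :: l)) =
      ∑ i ∈ s, c i * ∑ a, F.c a * F.Pr n (fun l => x (a :: l)) (fun l => y i (F.st a :: l))
    have h1 : ∀ a, F.Pr n (fun l => x (a :: l)) (fun l => ∑ i ∈ s, c i * y i (F.st a :: l)) =
        ∑ i ∈ s, c i * F.Pr n (fun l => x (a :: l)) (fun l => y i (F.st a :: l)) :=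
      fun a => ih _ (fun i l => y i (F.st a :: l))
    simp only [h1, Finset.mul_sum]
    rw [Finset.sum_comm]
    refine Finset.sum_congr rfl fun i _ => Finset.sum_congr rfl fun a _ => ?_
    ring

theorem Pr_smul_left (k : K) (n : ℕ) (x y : List I → K) :
    F.Pr n (fun l => k * x l) y = k * F.Pr n x y := by
  have h := Pr_sum_left F (Finset.univ : Finset Unit) (fun _ => k) n (fun _ => x) y
  simpa using h

end

theorem ks_comm (K : Type) [Field K] (p q : Bool) : ks K p q = ks K q p := by
  unfold ks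
  simp only [and_comm]

theorem pf_ONN : T_ONN := by
  intro K _ I _ _ F n x y hn
  obtain ⟨m, rfl⟩ : ∃ m, n = m + 2 := ⟨n - 2, by omega⟩
  refine ⟨rfl, ?_, ?_⟩
  · show ∑ a, ∑ b, ks K (F.o a) (F.o b) * F.c a * F.c b *
        F.Pr m (fun l => x (a :: b :: l)) (fun l => y (F.st b :: F.st a :: l)) =
      ∑ a, F.c a * ∑ b, F.c b * F.Pr m (fun l => ks K (F.o a) (F.o b) * x (b :: a :: l))
        (fun l => y (F.st a :: F.st b :: l))
    rw [Finset.sum_comm]
    refine Finset.sum_congr rfl fun a _ => ?_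
    rw [Finset.mul_sum]
    refine Finset.sum_congr rfl fun b _ => ?_
    rw [Pr_smul_left F (ks K (F.o a) (F.o b)) m (fun l => x (b :: a :: l))
      (fun l => y (F.st a :: F.st b :: l)), ks_comm K (F.o b) (F.o a)]
    ring
  · show ∑ a, ∑ d, F.c a * F.c (F.st d) *
        F.Pr m (fun l => x (a :: F.st a :: l)) (fun l => y (d :: F.st d :: l)) =
      F.Pr m (con F.η 0 x) (F.con' y)
    have hx : con F.η 0 x = fun l => ∑ a, F.c a * x (a :: F.st a :: l) :=
      funext fun l => F.con_append [] x l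
    have hy : F.con' y = fun l => ∑ d, F.c d * y (F.st d :: d :: l) := rfl
    rw [hx, hy, Pr_sum_left F Finset.univ F.c m (fun a l => x (a :: F.st a :: l))]
    refine Finset.sum_congr rfl fun a _ => ?_
    rw [Pr_sum_right F Finset.univ F.c m _ (fun d l => y (F.st d :: d :: l)), Finset.mul_sum,
      ← F.sum_st]
    refine Finset.sum_congr rfl fun d _ => ?_
    rw [F.st_st, mul_assoc]

end Pool.Agent.H27.EV.ONN
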